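import Pool.Agent.H75C.FQ.Main

/-!
# Polynomial space and guesses that are right slightly more often than half of the time

A language is predictable if a polynomial-time algorithm gives, for each long enough list of
strings, a list of guesses for the truth values of the strings such that some guess is right at
slightly more than half of the positions (`1/2 + 1/p(n)` for a polynomial `p`).  Polynomial space is
contained in polynomial time if and only if all languages in polynomial space are predictable on
lists of different strings, and if and only if some language that is hard for polynomial space is
predictable on all lists.  (With `1/2` in place of `1/2 + 1/p(n)` the condition would hold for all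
languages, by two constant guesses: `Pool.Agent.H75C.FQ.half_trivial`.)
-/

set_option autoImplicit false

namespace Pool.Agent.Results.MP_c578c8_lc.FrequencyAboveHalf

open Pool.Agent.NPC
open Pool.Agent.H623R2.PS (InPSPACE PSPACEHard)
open Pool.Agent.H75C.FQ

theorem result :
    List.TFAE [
      ∀ L : Set (List Bool), InPSPACE L → InP L,
      ∀ L : Set (List Bool), InPSPACE L → Predictable List.Nodup L,
      ∃ A : Set (List Bool), PSPACEHard A ∧ Predictable (fun _ => True) A] := by
  tfae_have 1 → 2 := fun h L hL => predictable_of_inP (h L hL)
  tfae_have 2 → 1 := fun h L hL => collapse (h LF inPSPACE_LF) hL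
  tfae_have 1 → 3 := by
    intro h
    refine ⟨{[true]}, fun L hL => h L hL, predictable_of_inP ⟨fun x => x,
      Pool.Agent.Helper70K1.SP.polyTime_of_typed Poly.id, fun x => Iff.rfl⟩⟩
  tfae_have 3 → 1 := by
    rintro ⟨A, hA, h⟩ L hL
    exact collapse ((h.reduces (hA LF inPSPACE_LF)).mono fun _ _ => trivial) hL
  tfae_finish

end Pool.Agent.Results.MP_c578c8_lc.FrequencyAboveHalf
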