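import Pool.Agent.Helper70K1.NQ.Main
import Pool.Agent.Helper48.NQ.B

/-!
# Nondeterministic parity prediction and polynomial space

Polynomial space is contained in `NP` if and only if every language in polynomial space is parity
predictable by a nondeterministic algorithm, and if and only if some language that is hard for
polynomial space under strong nondeterministic many-one reductions is.

`NPredictable K`: for polynomially many strings and each guess that it does not reject, a
polynomial-time algorithm gives a list of statements on the parity of the number of elements of `K`
in nonempty subfamilies of the strings, at least a fraction `1/2 + 1/poly` of which is right; some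
guess is not rejected.

Proof. Let `LP` be the language of the bits of certain words: for a quantified Boolean formula and
values modulo a small prime for its variables, let `V` be the number coding the round polynomial of
the interactive proof of Shamir and Shen. A residue of the last bits of `V` is hashed to a pair of
elements of the field with `2^r` elements, and the pair is expanded to a word of polynomial length
by the small bias generator of Alon, Goldreich, Hastad and Peralta. The statements exclude wrong
candidates for the last bits of `V` as long as there are many of them. The certificate is a table of
guesses for all the lists of strings that occur when the algorithm runs with this table; the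
evaluation points of the protocol, and so the later lists, depend on the table.
-/

set_option autoImplicit false

namespace Pool.Agent.Results.MP_c578c8_lc.NondeterministicPrediction

open Pool.Agent.NPC (InNP)
open Pool.Agent.H623R2.PS (InPSPACE)
open Pool.Agent.Helper70K1.NQ (NPredictable SNReduces)

theorem result :
    List.TFAE [
      ∀ L : Set (List Bool), InPSPACE L → InNP L,
      ∀ L : Set (List Bool), InPSPACE L → NPredictable L,
      ∃ K : Set (List Bool), (∀ L : Set (List Bool), InPSPACE L → SNReduces L K) ∧
        NPredictable K] := by
  tfae_have 1 → 2 := fun h L hL => Pool.Agent.Helper48.NQ.npredictable_of_collapse h hL
  tfae_have 2 → 3 := fun h => by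
    obtain ⟨K, hK, hK'⟩ := Pool.Agent.Helper48.NQ.exists_complete
    exact ⟨K, fun L hL => Pool.Agent.Helper48.NQ.snreduces_of_reduces (hK' L hL), h K hK⟩
  tfae_have 3 → 1 := fun ⟨K, hK, hK'⟩ L hL =>
    Pool.Agent.Helper70K1.NQ.inNP_of_npredictable
      (Pool.Agent.Helper48.NQ.NPredictable.of_snreduces hK'
        (hK _ Pool.Agent.Helper70K1.PP.inPSPACE_LP)) hL
  tfae_finish

end Pool.Agent.Results.MP_c578c8_lc.NondeterministicPrediction
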