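import Pool.Agent.Helper70K1.PP.Main

/-!
# Parity prediction and polynomial space

Polynomial space is contained in polynomial time if and only if some language `K` that is hard for
polynomial space under polynomial-time many-one reductions is parity predictable: a
polynomial-time algorithm gets polynomially many strings and gives a nonempty list of statements on
the parity of the number of elements of `K` in nonempty subfamilies of the strings, at least a
fraction `1/2 + 1/poly` of which is right.

Proof. Let `LP` be the language of the bits of certain words: for a quantified Boolean formula and
values modulo a small prime for its variables, let `V` be the number coding the round polynomial of
the interactive proof of Shamir and Shen, that is the value of the arithmetized formula as a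
polynomial in one free variable. A residue of the last bits of `V` is hashed to a pair of elements
of the field with `2^r` elements, and the pair is expanded to a word of polynomial length by the
small bias generator of Alon, Goldreich, Hastad and Peralta. If `LP` is parity predictable then the
statements, compared with the words of a list of candidates for the last bits of `V`, exclude wrong
candidates as long as there are many of them, as a small bias space fools all parity statements.
So polynomially many candidates for `V` are computed, bit by bit, and the list of candidates is
carried along the protocol by means of evaluation points at which all the candidates differ.
-/

set_option autoImplicit false

namespace Pool.Agent.Results.MP_c578c8_lc.ParityPrediction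

open Pool.Agent.NPC (InP)
open Pool.Agent.H623R2.PS (InPSPACE PSPACEHard)
open Pool.Agent.Helper70K1.PP (ParityPredictable)

/-- **Theorem.** Polynomial space is contained in polynomial time if and only if some language that
is hard for polynomial space is parity predictable. -/
theorem result : (∃ K : Set (List Bool), PSPACEHard K ∧ ParityPredictable K) ↔
    ∀ L : Set (List Bool), InPSPACE L → InP L :=
  Pool.Agent.Helper70K1.PP.predictable_iff

end Pool.Agent.Results.MP_c578c8_lc.ParityPrediction
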