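import Pool.Agent.Helper49.HS.Gate

/-!
# Polynomial space, polynomial time and weighted threshold gates

A language `L` is a `Halfspace` if a function computable in polynomial time sends each string `x`
to a vector of integers and, for each length `n`, some linear functional with arbitrary real
coefficients is positive at the vectors of the strings of length `n` in `L` and not positive at the
vectors of the other strings of length `n`. A language is in `LT1` if it is decided by one weighted
threshold gate, with arbitrary real weights, for each input length.

Polynomial space is contained in polynomial time if and only if all languages in polynomial space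
are halfspaces, and if and only if some language that is hard for polynomial space (under
many-one reductions in polynomial time) is in `LT1`.
-/

set_option autoImplicit false

namespace Pool.Agent.Results.MP_c578c8_lc.ThresholdGates

open Pool.Agent.NPC
open Pool.Agent.H623R2.PS (InPSPACE PSPACEHard)
open Pool.Agent.Helper49.HS

theorem result : List.TFAE [
    ∀ L : Set (List Bool), InPSPACE L → InP L,
    ∀ L : Set (List Bool), InPSPACE L → Halfspace L,
    ∃ A : Set (List Bool), PSPACEHard A ∧ LT1 A] := by
  tfae_have 1 → 2 := fun h L hL => halfspace_of_inP (h L hL)
  tfae_have 2 → 1 := fun h L hL => collapse_of_all h L hL
  tfae_have 3 → 1 := by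
    rintro ⟨A, hA, h⟩
    exact collapse_of_hard hA (halfspace_of_LT1 h)
  tfae_have 1 → 3 := fun h => ⟨{[true]}, fun L hL => h L hL, LT1_single⟩
  tfae_finish

end Pool.Agent.Results.MP_c578c8_lc.ThresholdGates
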